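import Mathlib
import Pool.Agent.N167.TR.Stm
import Pool.Agent.N415.DY.Bar

/-!
# TR/2: Galerkin solutions on a tree with the energy bound (for helper167)
-/

set_option autoImplicit false

namespace Pool.Agent.N769.TR

open Set Pool.Agent.N167.TR

section alg

variable {M : ℕ} (hg : S_gen)
include hg

theorem gen_mono (n : ℕ) {g h : List (Fin M) → ℝ}
    (H : ∀ j : List (Fin M), j.length = n → g j ≤ h j) : gen n g ≤ gen n h :=
  (hg M).2.2.1 n g h H

theorem gen_congr (n : ℕ) {g h : List (Fin M) → ℝ}
    (H : ∀ j : List (Fin M), j.length = n → g j = h j) : gen n g = gen n h :=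
  le_antisymm (gen_mono hg n fun j hj => (H j hj).le) (gen_mono hg n fun j hj => (H j hj).ge)

theorem gen_add (n : ℕ) (g h : List (Fin M) → ℝ) :
    gen n (fun j => g j + h j) = gen n g + gen n h := (hg M).1 n g h

theorem gen_mul (n : ℕ) (c : ℝ) (g : List (Fin M) → ℝ) :
    gen n (fun j => c * g j) = c * gen n g := (hg M).2.1 n c g

theorem gen_nonneg (n : ℕ) {g : List (Fin M) → ℝ}
    (H : ∀ j : List (Fin M), j.length = n → 0 ≤ g j) : 0 ≤ gen n g := by
  have h1 := gen_mono hg n (g := fun _ => 0) (h := g) H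
  rw [(hg M).2.2.2.2.1, mul_zero] at h1
  exact h1

/-- A node is bounded by the sum over its generation. -/
theorem le_gen (n : ℕ) {g : List (Fin M) → ℝ} (H : ∀ i : List (Fin M), 0 ≤ g i)
    {j : List (Fin M)} (hj : j.length = n) : g j ≤ gen n g := (hg M).2.2.2.1 n g j H hj

variable (B D ν : ℝ) (f X : List (Fin M) → ℝ)

theorem gen_rhs_zero : gen 0 (fun j => X j * rhs B D ν f X j) =
    (gen 0 (fun j => X j * f j) - ν * D ^ 0 * gen 0 (fun j => X j ^ 2)) -
      B ^ 0 * gen 0 (fun j => X j ^ 2 * ∑ k : Fin M, X (k :: j)) := by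
  simp only [gen, rhs, inflow, List.length_nil, pow_zero]
  ring

theorem gen_rhs_succ (n : ℕ) : gen (n + 1) (fun j => X j * rhs B D ν f X j) =
    gen (n + 1) (fun j => X j * f j) - ν * D ^ (n + 1) * gen (n + 1) (fun j => X j ^ 2) +
      B ^ n * gen n (fun j => X j ^ 2 * ∑ k : Fin M, X (k :: j)) -
      B ^ (n + 1) * gen (n + 1) (fun j => X j ^ 2 * ∑ k : Fin M, X (k :: j)) := by
  have e1 : gen (n + 1) (fun j => X j * rhs B D ν f X j) =
      gen (n + 1) (fun j => (X j * f j + -(ν * D ^ (n + 1)) * X j ^ 2) +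
        (X j * inflow B X j + -(B ^ (n + 1)) * (X j ^ 2 * ∑ k : Fin M, X (k :: j)))) :=
    gen_congr hg _ fun j hj => by
      unfold rhs
      rw [hj]
      ring
  have e2 : gen (n + 1) (fun j => X j * inflow B X j) =
      B ^ n * gen n (fun j => X j ^ 2 * ∑ k : Fin M, X (k :: j)) := by
    rw [← gen_mul hg]
    change gen n (fun j => ∑ k : Fin M, X (k :: j) * inflow B X (k :: j)) = _
    refine gen_congr hg _ fun j hj => ?_
    simp only [inflow]
    rw [hj, ← Finset.sum_mul]
    ring
  rw [e1, gen_add hg, gen_add hg, gen_add hg, gen_mul hg, gen_mul hg, e2]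
  ring

/-- The energy identity. -/
theorem gen_energy (N : ℕ) :
    ∑ n ∈ Finset.range (N + 1), gen n (fun j => X j * rhs B D ν f X j) =
      ∑ n ∈ Finset.range (N + 1),
        (gen n (fun j => X j * f j) - ν * D ^ n * gen n (fun j => X j ^ 2)) -
      B ^ N * gen N (fun j => X j ^ 2 * ∑ k : Fin M, X (k :: j)) := by
  induction N with
  | zero =>
    rw [Finset.sum_range_one, Finset.sum_range_one]
    exact gen_rhs_zero hg B D ν f X
  | succ N ih =>
    rw [Finset.sum_range_succ, ih, Finset.sum_range_succ _ (N + 1), gen_rhs_succ hg]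
    ring

theorem energy_neg {B D ν E G : ℝ} {f X : List (Fin M) → ℝ} {N : ℕ} (hD : 1 ≤ D) (hν : 0 < ν)
    (hX : ∀ j : List (Fin M), N < j.length → X j = 0)
    (hE : ∑ n ∈ Finset.range (N + 1), gen n (fun j => X j ^ 2) = E)
    (hG : ∑ n ∈ Finset.range (N + 1), gen n (fun j => f j ^ 2) ≤ G) (hGE : G < ν ^ 2 * E) :
    ∑ n ∈ Finset.range (N + 1), gen n (fun j => X j * rhs B D ν f X j) < 0 := by
  rw [gen_energy hg]
  have h1 : gen N (fun j => X j ^ 2 * ∑ k : Fin M, X (k :: j)) = 0 := by
    have h2 : gen N (fun j => X j ^ 2 * ∑ k : Fin M, X (k :: j)) =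
        gen N (fun _ : List (Fin M) => (0 : ℝ)) := by
      refine gen_congr hg _ fun j hj => ?_
      rw [Finset.sum_eq_zero fun k _ => hX (k :: j) (by rw [List.length_cons]; omega), mul_zero]
    rw [h2, (hg M).2.2.2.2.1, mul_zero]
  rw [h1, mul_zero, sub_zero]
  have h3 : ∀ n ∈ Finset.range (N + 1),
      gen n (fun j => X j * f j) - ν * D ^ n * gen n (fun j => X j ^ 2) ≤
        1 / (2 * ν) * gen n (fun j => f j ^ 2) - ν / 2 * gen n (fun j => X j ^ 2) := by
    intro n _
    have h4 : gen n (fun j => X j * f j) ≤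
        gen n (fun j => 1 / (2 * ν) * f j ^ 2 + ν / 2 * X j ^ 2) := by
      refine gen_mono hg n fun j _ => ?_
      have h5 := sq_nonneg (f j - ν * X j)
      have h6 : 1 / (2 * ν) * f j ^ 2 + ν / 2 * X j ^ 2 - X j * f j =
          (f j - ν * X j) ^ 2 / (2 * ν) := by
        field_simp
        ring
      have h7 : 0 ≤ (f j - ν * X j) ^ 2 / (2 * ν) := by positivity
      linarith
    rw [gen_add hg, gen_mul hg, gen_mul hg] at h4
    have h8 : 0 ≤ gen n (fun j => X j ^ 2) := gen_nonneg hg n fun j _ => sq_nonneg _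
    have h9 : ν * gen n (fun j => X j ^ 2) ≤ ν * D ^ n * gen n (fun j => X j ^ 2) := by
      have h10 : ν * 1 ≤ ν * D ^ n := mul_le_mul_of_nonneg_left (one_le_pow₀ hD) hν.le
      rw [mul_one] at h10
      exact mul_le_mul_of_nonneg_right h10 h8
    linarith
  refine (Finset.sum_le_sum h3).trans_lt ?_
  rw [Finset.sum_sub_distrib, ← Finset.mul_sum, ← Finset.mul_sum, hE]
  have h11 : 1 / (2 * ν) * ∑ n ∈ Finset.range (N + 1), gen n (fun j => f j ^ 2) ≤
      1 / (2 * ν) * G := mul_le_mul_of_nonneg_left hG (by positivity)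
  have h12 : 1 / (2 * ν) * G - ν / 2 * E = (G - ν ^ 2 * E) / (2 * ν) := by
    field_simp
  have h13 : (G - ν ^ 2 * E) / (2 * ν) < 0 := div_neg_of_neg_of_pos (by linarith) (by positivity)
  linarith

end alg

theorem t_gal : S_gal := by
  intro hg hcl M B D ν f x E G N T hB hD hν hT hf hf0 hx hxE hfG hGE
  have h00 : (0 : ℝ) ∈ Icc (0 : ℝ) T := ⟨le_rfl, hT.le⟩
  have hG0 : 0 ≤ G := (Finset.sum_nonneg fun n _ => gen_nonneg hg n fun j _ => sq_nonneg _).trans
    (hfG 0 h00)
  have hE0 : 0 < E := by
    by_contra hcon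
    push Not at hcon
    have h1 : ν ^ 2 * E ≤ 0 := mul_nonpos_of_nonneg_of_nonpos (sq_nonneg _) hcon
    linarith
  obtain ⟨X, hX0, hXi, hXd⟩ := hcl M B D ν f x (Real.sqrt E) N T hT (Real.sqrt_nonneg E) hf
  -- positivity
  have hpos : ∀ j, ∀ t ∈ Icc (0 : ℝ) T, 0 ≤ X j t := by
    intro n t ht
    rcases le_or_gt n.length N with hn | hn
    · have := N415.DY.t_scalar T 0 (fun s => - X n s)
        (fun s => - rhs B D ν (fun m => f m s) (fun m => clamp (Real.sqrt E) (X m s)) n) hT.le
        (fun s hs => (hXd n hn s hs).neg) (by simp only [hXi n hn]; linarith [hx n])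
        (by
          intro s hs hlt
          have hXn : X n s < 0 := by linarith
          have hcl : clamp (Real.sqrt E) (X n s) = 0 := by
            unfold clamp
            apply max_eq_left
            exact le_trans (min_le_left _ _) hXn.le
          have hin : 0 ≤ inflow B (fun m => clamp (Real.sqrt E) (X m s)) n := by
            cases n with
            | nil => simp [inflow]
            | cons k i =>
              simp only [inflow]
              exact mul_nonneg (pow_pos hB _).le (sq_nonneg _)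
          have hfn := hf0 n s hs
          simp only [rhs, hcl, mul_zero, zero_mul, sub_zero]
          linarith)
        t ht
      have h3 : - X n t ≤ 0 := this
      linarith
    · rw [hX0 n hn t]
  -- inactive clamps
  have hina : ∀ t ∈ Icc (0 : ℝ) T,
      ∑ n ∈ Finset.range (N + 1), gen n (fun j => X j t ^ 2) ≤ E →
      (fun m => clamp (Real.sqrt E) (X m t)) = fun m => X m t := by
    intro t ht hle
    funext j
    have h1 : X j t ≤ Real.sqrt E := by
      rcases le_or_gt j.length N with hn | hn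
      · apply Real.le_sqrt_of_sq_le
        have h2 : X j t ^ 2 ≤ gen j.length (fun j => X j t ^ 2) :=
          le_gen hg j.length (g := fun j => X j t ^ 2) (fun i => sq_nonneg _) rfl
        have h3 : gen j.length (fun j => X j t ^ 2) ≤
            ∑ n ∈ Finset.range (N + 1), gen n (fun j => X j t ^ 2) :=
          Finset.single_le_sum (f := fun n => gen n (fun j => X j t ^ 2))
            (fun n _ => gen_nonneg hg n fun j _ => sq_nonneg _)
            (Finset.mem_range.2 (Nat.lt_succ_of_le hn))
        linarith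
      · rw [hX0 j hn t]
        exact Real.sqrt_nonneg _
    unfold clamp
    rw [min_eq_left h1, max_eq_right (hpos j t ht)]
  -- the energy
  have hed : ∀ t ∈ Icc (0 : ℝ) T, HasDerivWithinAt
      (fun s => E - ∑ n ∈ Finset.range (N + 1), gen n (fun j => X j s ^ 2))
      (-∑ n ∈ Finset.range (N + 1), gen n (fun j => 2 * (X j t *
        rhs B D ν (fun m => f m t) (fun m => clamp (Real.sqrt E) (X m t)) j))) (Icc 0 T) t := by
    intro t ht
    refine HasDerivWithinAt.const_sub _ ?_
    have h1 : ∀ n ∈ Finset.range (N + 1), HasDerivWithinAt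
        (fun s => gen n (fun j => X j s ^ 2)) (gen n (fun j => 2 * (X j t *
          rhs B D ν (fun m => f m t) (fun m => clamp (Real.sqrt E) (X m t)) j))) (Icc 0 T) t := by
      intro n hn
      have hn' : n ≤ N := Nat.lt_succ_iff.1 (Finset.mem_range.1 hn)
      refine (hg M).2.2.2.2.2.1 n (fun j s => X j s ^ 2) (fun j s => 2 * (X j s *
          rhs B D ν (fun m => f m s) (fun m => clamp (Real.sqrt E) (X m s)) j)) (Icc 0 T) t
          fun j hj => ?_
      have h2 := (hXd j (by omega) t ht).pow 2
      refine h2.congr_deriv ?_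
      push_cast
      ring
    exact HasDerivWithinAt.fun_sum h1
  have hbar := N415.DY.t_barrier Unit T
    (fun _ s => E - ∑ n ∈ Finset.range (N + 1), gen n (fun j => X j s ^ 2))
    (fun _ t => -∑ n ∈ Finset.range (N + 1), gen n (fun j => 2 * (X j t *
        rhs B D ν (fun m => f m t) (fun m => clamp (Real.sqrt E) (X m t)) j))) hT.le
    (fun _ t ht => hed t ht)
    (by
      intro _
      have h1 : ∑ n ∈ Finset.range (N + 1), gen n (fun j => X j 0 ^ 2) =
          ∑ n ∈ Finset.range (N + 1), gen n (fun j => x j ^ 2) := by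
        refine Finset.sum_congr rfl fun n hn => gen_congr hg n fun j hj => ?_
        have hn' : n ≤ N := Nat.lt_succ_iff.1 (Finset.mem_range.1 hn)
        rw [hXi j (by omega)]
      have h2 : 0 ≤ E - ∑ n ∈ Finset.range (N + 1), gen n (fun j => X j 0 ^ 2) := by
        rw [h1]
        linarith
      exact h2)
    (by
      intro _ t ht _ hz
      have hz' : E - ∑ n ∈ Finset.range (N + 1), gen n (fun j => X j t ^ 2) = 0 := hz
      have htI : t ∈ Icc (0 : ℝ) T := ⟨ht.1, ht.2.le⟩
      have h1 := hina t htI (by linarith)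
      rw [h1]
      have h2 : ∑ n ∈ Finset.range (N + 1), gen n (fun j => 2 * (X j t *
          rhs B D ν (fun m => f m t) (fun m => X m t) j)) =
          2 * ∑ n ∈ Finset.range (N + 1), gen n (fun j => X j t *
          rhs B D ν (fun m => f m t) (fun m => X m t) j) := by
        rw [Finset.mul_sum]
        exact Finset.sum_congr rfl fun n _ => gen_mul hg n 2 _
      have h3 := energy_neg hg (B := B) (X := fun m => X m t) (f := fun m => f m t) hD hν
        (fun j hj => hX0 j hj t) (by linarith) (hfG t htI) hGE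
      rw [h2]
      linarith)
  have hle : ∀ t ∈ Icc (0 : ℝ) T,
      ∑ n ∈ Finset.range (N + 1), gen n (fun j => X j t ^ 2) ≤ E := by
    intro t ht
    have h1 : 0 ≤ E - ∑ n ∈ Finset.range (N + 1), gen n (fun j => X j t ^ 2) := hbar () t ht
    linarith
  refine ⟨X, hX0, hXi, fun j hj t ht => ?_, hpos, hle⟩
  have h1 := hXd j hj t ht
  rw [hina t ht (hle t ht)] at h1
  exact h1

end Pool.Agent.N769.TR
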