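import Mathlib
import Pool.Agent.N167.TR.Stm

/-!
# TR/1: the clamped Galerkin system on a tree has solutions (Picard–Lindelöf) (for helper167)
-/

set_option autoImplicit false

namespace Pool.Agent.N769.TR

open Set Pool.Agent.N167.TR
open scoped NNReal

/-- the nodes of generation at most `N` -/
abbrev Nd (M N : ℕ) : Type := {j : List (Fin M) // j.length ≤ N}

theorem finite_nd (M N : ℕ) : Finite (Nd M N) := by
  have h := List.finite_length_le (Fin M) N
  exact h.to_subtype

noncomputable instance (M N : ℕ) : Fintype (Nd M N) :=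
  have := finite_nd M N
  Fintype.ofFinite _

variable {M : ℕ}

/-- extension by zero -/
noncomputable def ext (N : ℕ) (w : Nd M N → ℝ) (m : List (Fin M)) : ℝ :=
  if h : m.length ≤ N then w ⟨m, h⟩ else 0

theorem abs_ext_sub (N : ℕ) (w w' : Nd M N → ℝ) (m : List (Fin M)) :
    |ext N w m - ext N w' m| ≤ dist w w' := by
  unfold ext
  split_ifs with h
  · rw [← Real.dist_eq]
    exact dist_le_pi_dist w w' _
  · simp

theorem clamp_nonneg (A x : ℝ) : 0 ≤ clamp A x := le_max_left _ _

theorem clamp_le {A : ℝ} (hA : 0 ≤ A) (x : ℝ) : clamp A x ≤ A :=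
  max_le hA (min_le_right _ _)

theorem abs_clamp_sub (A x y : ℝ) : |clamp A x - clamp A y| ≤ |x - y| := by
  unfold clamp
  have h1 := abs_max_sub_max_le_max 0 (min x A) 0 (min y A)
  have h2 := abs_min_sub_min_le_max x A y A
  simp only [sub_self, abs_zero] at h1 h2
  rw [max_eq_right (abs_nonneg (min x A - min y A))] at h1
  rw [max_eq_left (abs_nonneg (x - y))] at h2
  exact h1.trans h2

/-- Lipschitz constant of the node `j` -/
noncomputable def Kn (B D ν A : ℝ) (j : List (Fin M)) : ℝ :=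
  |ν| * |D| ^ j.length + |B| ^ (j.length - 1) * (2 * A) + |B| ^ j.length * (M * (2 * A))

/-- bound of the field of the node `j` -/
noncomputable def Bn (B D ν A : ℝ) (j : List (Fin M)) : ℝ :=
  |ν| * |D| ^ j.length * A + |B| ^ (j.length - 1) * A ^ 2 + |B| ^ j.length * (M * A ^ 2)

theorem Kn_nonneg (B D ν : ℝ) {A : ℝ} (hA : 0 ≤ A) (j : List (Fin M)) : 0 ≤ Kn B D ν A j := by
  unfold Kn; positivity

theorem Bn_nonneg (B D ν : ℝ) {A : ℝ} (hA : 0 ≤ A) (j : List (Fin M)) : 0 ≤ Bn B D ν A j := by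
  unfold Bn; positivity

section est

variable {B D ν A δ : ℝ} {g X Y : List (Fin M) → ℝ} (hA : 0 ≤ A) (hX : ∀ n, |X n| ≤ A)
  (hY : ∀ n, |Y n| ≤ A) (hδ : 0 ≤ δ) (hXY : ∀ n, |X n - Y n| ≤ δ)

include hA hX hY hXY in
theorem prod_sub_le (m n : List (Fin M)) : |X m * X n - Y m * Y n| ≤ 2 * A * δ := by
  have e : X m * X n - Y m * Y n = X m * (X n - Y n) + (X m - Y m) * Y n := by ring
  rw [e]
  refine (abs_add_le _ _).trans ?_
  rw [abs_mul, abs_mul]
  have a1 : |X m| * |X n - Y n| ≤ A * δ :=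
    mul_le_mul (hX m) (hXY n) (abs_nonneg _) hA
  have a2 : |X m - Y m| * |Y n| ≤ δ * A :=
    mul_le_mul (hXY m) (hY n) (abs_nonneg _) ((abs_nonneg _).trans (hXY m))
  linarith

include hA hX hY hδ hXY in
theorem rhs_sub_le (n : List (Fin M)) :
    |rhs B D ν g X n - rhs B D ν g Y n| ≤ Kn B D ν A n * δ := by
  have e : rhs B D ν g X n - rhs B D ν g Y n
      = -(ν * D ^ n.length * (X n - Y n)) + (inflow B X n - inflow B Y n)
        - B ^ n.length * ∑ k : Fin M, (X n * X (k :: n) - Y n * Y (k :: n)) := by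
    unfold rhs
    rw [Finset.sum_sub_distrib, ← Finset.mul_sum, ← Finset.mul_sum]
    ring
  rw [e]
  have b1 : |-(ν * D ^ n.length * (X n - Y n))| ≤ |ν| * |D| ^ n.length * δ := by
    rw [abs_neg, abs_mul, abs_mul, abs_pow]
    have := hXY n
    gcongr
  have b3 : |B ^ n.length * ∑ k : Fin M, (X n * X (k :: n) - Y n * Y (k :: n))| ≤
      |B| ^ n.length * (M * (2 * A * δ)) := by
    rw [abs_mul, abs_pow]
    have h1 : |∑ k : Fin M, (X n * X (k :: n) - Y n * Y (k :: n))| ≤ M * (2 * A * δ) := by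
      refine (Finset.abs_sum_le_sum_abs _ _).trans ?_
      refine (Finset.sum_le_sum fun k _ => prod_sub_le hA hX hY hXY n (k :: n)).trans ?_
      rw [Finset.sum_const, Finset.card_univ, Fintype.card_fin, nsmul_eq_mul]
    gcongr
  have b4 := abs_sub (-(ν * D ^ n.length * (X n - Y n)) + (inflow B X n - inflow B Y n))
    (B ^ n.length * ∑ k : Fin M, (X n * X (k :: n) - Y n * Y (k :: n)))
  have b5 := abs_add_le (-(ν * D ^ n.length * (X n - Y n))) (inflow B X n - inflow B Y n)
  have b2 : |inflow B X n - inflow B Y n| ≤ |B| ^ (n.length - 1) * (2 * A * δ) := by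
    cases n with
    | nil =>
      simp only [inflow, sub_self, abs_zero]
      positivity
    | cons k i =>
      have p2 := prod_sub_le hA hX hY hXY i i
      have e2 : inflow B X (k :: i) - inflow B Y (k :: i) =
          B ^ i.length * (X i * X i - Y i * Y i) := by
        unfold inflow; ring
      rw [e2, abs_mul, abs_pow, List.length_cons, Nat.add_sub_cancel]
      gcongr
  unfold Kn
  linarith

include hA hX in
theorem rhs_le (n : List (Fin M)) : |rhs B D ν g X n| ≤ |g n| + Bn B D ν A n := by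
  have q : ∀ m n, |X m * X n| ≤ A ^ 2 := fun m n => by
    rw [abs_mul, sq]
    exact mul_le_mul (hX m) (hX n) (abs_nonneg _) hA
  have b1 : |-(ν * D ^ n.length * X n)| ≤ |ν| * |D| ^ n.length * A := by
    rw [abs_neg, abs_mul, abs_mul, abs_pow]
    have := hX n
    gcongr
  have e : rhs B D ν g X n = g n + -(ν * D ^ n.length * X n) + inflow B X n
      - B ^ n.length * ∑ k : Fin M, (X n * X (k :: n)) := by
    unfold rhs
    rw [← Finset.mul_sum]
    ring
  have b3 : |B ^ n.length * ∑ k : Fin M, (X n * X (k :: n))| ≤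
      |B| ^ n.length * (M * A ^ 2) := by
    rw [abs_mul, abs_pow]
    have h1 : |∑ k : Fin M, (X n * X (k :: n))| ≤ M * A ^ 2 := by
      refine (Finset.abs_sum_le_sum_abs _ _).trans ?_
      refine (Finset.sum_le_sum fun k _ => q n (k :: n)).trans ?_
      rw [Finset.sum_const, Finset.card_univ, Fintype.card_fin, nsmul_eq_mul]
    gcongr
  rw [e]
  have b4 := abs_sub (g n + -(ν * D ^ n.length * X n) + inflow B X n)
    (B ^ n.length * ∑ k : Fin M, (X n * X (k :: n)))
  have b5 := abs_add_le (g n + -(ν * D ^ n.length * X n)) (inflow B X n)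
  have b6 := abs_add_le (g n) (-(ν * D ^ n.length * X n))
  have b2 : |inflow B X n| ≤ |B| ^ (n.length - 1) * A ^ 2 := by
    cases n with
    | nil =>
      simp only [inflow, abs_zero]
      positivity
    | cons k i =>
      have e2 : inflow B X (k :: i) = B ^ i.length * (X i * X i) := by
        unfold inflow; ring
      rw [e2, abs_mul, abs_pow, List.length_cons, Nat.add_sub_cancel]
      have := q i i
      gcongr
  unfold Bn
  linarith

end est

theorem t_clamped : S_clamped := by
  intro M B D ν f x A N T hT hA hf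
  set c : (Nd M N → ℝ) → List (Fin M) → ℝ := fun w m => clamp A (ext N w m) with hc
  set v : ℝ → (Nd M N → ℝ) → Nd M N → ℝ :=
    fun t w i => rhs B D ν (fun m => f m t) (c w) i with hv
  have hcA : ∀ w m, |c w m| ≤ A := fun w m => by
    rw [abs_of_nonneg (clamp_nonneg _ _)]; exact clamp_le hA _
  have hcd : ∀ w w' m, |c w m - c w' m| ≤ dist w w' := fun w w' m =>
    (abs_clamp_sub _ _ _).trans (abs_ext_sub N w w' m)
  -- constants
  have hK0 : 0 ≤ ∑ i : Nd M N, Kn B D ν A i.1 :=
    Finset.sum_nonneg fun i _ => Kn_nonneg B D ν hA i.1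
  have hKi : ∀ i : Nd M N, Kn B D ν A i.1 ≤ ∑ i : Nd M N, Kn B D ν A i.1 := fun i =>
    Finset.single_le_sum (f := fun i : Nd M N => Kn B D ν A i.1)
      (fun i _ => Kn_nonneg B D ν hA i.1) (Finset.mem_univ i)
  have hM : ∀ n, ∃ M : ℝ, 0 ≤ M ∧ ∀ t ∈ Icc (0 : ℝ) T, |f n t| ≤ M := by
    intro n
    obtain ⟨M, hM⟩ := isCompact_Icc.exists_bound_of_continuousOn (hf n)
    exact ⟨max M 0, le_max_right _ _, fun t ht => (hM t ht).trans (le_max_left _ _)⟩
  choose m hM0 hM using hM
  set L : ℝ := ∑ i : Nd M N, (m i.1 + Bn B D ν A i.1) with hL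
  have hL0 : 0 ≤ L := Finset.sum_nonneg fun i _ => add_nonneg (hM0 i) (Bn_nonneg B D ν hA i.1)
  have hLi : ∀ i : Nd M N, m i.1 + Bn B D ν A i.1 ≤ L := fun i =>
    Finset.single_le_sum (f := fun i : Nd M N => m i.1 + Bn B D ν A i.1)
      (fun i _ => add_nonneg (hM0 i) (Bn_nonneg B D ν hA i.1)) (Finset.mem_univ i)
  have h0 : (0 : ℝ) ∈ Icc (0 : ℝ) T := ⟨le_rfl, hT.le⟩
  set x0 : Nd M N → ℝ := fun i => x i.1 with hx0
  have hPL : IsPicardLindelof v (⟨0, h0⟩ : Icc (0 : ℝ) T) x0 (⟨L, hL0⟩ * ⟨T, hT.le⟩) 0 ⟨L, hL0⟩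
      ⟨_, hK0⟩ := by
    refine ⟨?_, ?_, ?_, ?_⟩
    · intro t _
      apply LipschitzWith.lipschitzOnWith
      apply LipschitzWith.of_dist_le_mul
      intro w w'
      rw [dist_pi_le_iff (by positivity)]
      intro i
      rw [Real.dist_eq]
      have := rhs_sub_le (B := B) (D := D) (ν := ν) (g := fun m => f m t) hA (hcA w) (hcA w')
        dist_nonneg (hcd w w') i.1
      refine this.trans ?_
      exact mul_le_mul_of_nonneg_right (hKi i) dist_nonneg
    · intro w _
      rw [continuousOn_pi]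
      intro i
      simp only [hv, rhs]
      have := hf i
      fun_prop
    · intro t ht w _
      change ‖v t w‖ ≤ L
      rw [pi_norm_le_iff_of_nonneg hL0]
      intro i
      rw [Real.norm_eq_abs]
      have := rhs_le (B := B) (D := D) (ν := ν) (g := fun m => f m t) hA (hcA w) i.1
      refine this.trans ((add_le_add (hM i t ht) le_rfl).trans (hLi i))
    · push_cast
      change L * max (T - 0) (0 - 0) ≤ L * T - 0
      rw [sub_zero, sub_zero, max_eq_left hT.le, sub_zero]
  obtain ⟨α, hα0, hα⟩ := hPL.exists_eq_forall_mem_Icc_hasDerivWithinAt₀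
  refine ⟨fun n t => ext N (α t) n, ?_, ?_, ?_⟩
  · intro n hn t
    change ext N (α t) n = 0
    unfold ext
    rw [dif_neg (by omega)]
  · intro n hn
    have : α 0 = x0 := hα0
    simp only [this, ext, dif_pos hn, hx0]
  · intro n hn t ht
    have h1 := hasDerivWithinAt_pi.1 (hα t ht) ⟨n, hn⟩
    have e : (fun t => ext N (α t) n) = fun t => α t ⟨n, hn⟩ := by
      funext t
      unfold ext
      rw [dif_pos hn]
    change HasDerivWithinAt (fun t => ext N (α t) n)
      (rhs B D ν (fun m => f m t) (fun m => clamp A (ext N (α t) m)) n) (Icc 0 T) t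
    rw [e]
    exact h1

end Pool.Agent.N769.TR
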